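import Pool.Agent.H22.VM.Defs

/-!
# Vinogradov's mean value at the critical exponent with a sub-power loss: definitions (helper22)

A prime `p` is fixed. A *system* is a finite weighted set `Ω` with a weight preserving action `T` of
the additive group `ℤ[X]`. The polynomial `P` stands for the phase `P(x) / p^M`. A class is a pair
`(a, ξ)`, the residue class of `ξ` modulo `p^a`; for the classes of depth `a` we use the
representatives `ξ < p^a`, and the children of `(a, ξ)` are the classes `(a+1, ξ + p^a c)`, `c < p`.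
-/

set_option autoImplicit false

open Finset Polynomial

namespace Pool.Agent.H22.HL

/-- `e x = exp(2 π i x)` -/
noncomputable abbrev e (x : ℝ) : ℂ := Pool.Agent.H22.VM.e x

/-- the critical exponent `l(l+1)/2` -/
def kk (l : ℕ) : ℕ := l * (l + 1) / 2

/-- A weighted set with a weight preserving action of the additive group of integer
polynomials. -/
structure Sys (Ω : Type) where
  w : Ω → ℝ
  T : ℤ[X] → Ω → Ω
  w_nonneg : ∀ ω : Ω, 0 ≤ w ω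
  T_add : ∀ (P Q : ℤ[X]) (ω : Ω), T (P + Q) ω = T P (T Q ω)
  T_zero : ∀ ω : Ω, T 0 ω = ω
  w_T : ∀ (P : ℤ[X]) (ω : Ω), w (T P ω) = w ω

/-- `P / p^M` is constant modulo one on the class of `ξ` modulo `p^a` -/
def Cst (p M a : ℕ) (ξ : ℤ) (P : ℤ[X]) : Prop :=
  ∀ z : ℤ, (p : ℤ) ^ M ∣ P.eval (ξ + (p : ℤ) ^ a * z) - P.eval ξ

section
variable {Ω : Type}

/-- the `q`-th moment of `g` -/
noncomputable def mom [Fintype Ω] (S : Sys Ω) (q : ℕ) (g : Ω → ℂ) : ℝ :=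
  ∑ ω, S.w ω * ‖g ω‖ ^ q

/-- `g` is localised (degree `l`, modulus `p^M`) to the class `(a, ξ)`: a phase `P / p^M` of degree
`≤ l` which is constant on the class acts on `g` by this constant -/
def Loc (p M l : ℕ) (S : Sys Ω) (a : ℕ) (ξ : ℤ) (g : Ω → ℂ) : Prop :=
  ∀ P : ℤ[X], P.natDegree ≤ l → Cst p M a ξ P → ∀ ω : Ω,
    g (S.T P ω) = e (((P.eval ξ : ℤ) : ℝ) / (p : ℝ) ^ M) * g ω

/-- `χ` is invariant under the phases which are constant on the class `(a, ξ)` -/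
def Ivt {E : Type} (p M l : ℕ) (S : Sys Ω) (a : ℕ) (ξ : ℤ) (χ : Ω → E) : Prop :=
  ∀ P : ℤ[X], P.natDegree ≤ l → Cst p M a ξ P → ∀ ω : Ω, χ (S.T P ω) = χ ω

/-- sum over the children of the class `(a, ξ)` -/
noncomputable def ch (p : ℕ) (F : ℕ → ℕ → Ω → ℂ) (a ξ : ℕ) (ω : Ω) : ℂ :=
  ∑ c ∈ range p, F (a + 1) (ξ + p ^ a * c) ω

/-- a tree of functions of depth `n`: the function of a class is the sum of the functions of its
children, multiplied by a factor `χ` in `[0,1]` which is invariant; the functions of the classes of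
depth `n` are localised -/
structure Tree (p M k n : ℕ) (S : Sys Ω) (F : ℕ → ℕ → Ω → ℂ) (χ : ℕ → ℕ → Ω → ℝ) : Prop where
  chi_nonneg : ∀ a < n, ∀ ξ < p ^ a, ∀ ω : Ω, 0 ≤ χ a ξ ω
  chi_le : ∀ a < n, ∀ ξ < p ^ a, ∀ ω : Ω, χ a ξ ω ≤ 1
  chi_inv : ∀ a < n, ∀ ξ < p ^ a, Ivt p M k S a (ξ : ℤ) (χ a ξ)
  step : ∀ a < n, ∀ ξ < p ^ a, ∀ ω : Ω, F a ξ ω = (χ a ξ ω : ℂ) * ch p F a ξ ω
  leaf : ∀ x < p ^ n, Loc p M k S n (x : ℤ) (F n x)

/-- the square function at depth `i` -/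
noncomputable def gg (p n : ℕ) (F : ℕ → ℕ → Ω → ℂ) (i : ℕ) (ω : Ω) : ℝ :=
  if i < n then ∑ ξ ∈ range (p ^ i), ‖ch p F i ξ ω‖ ^ 2
  else ∑ ξ ∈ range (p ^ i), ‖F i ξ ω‖ ^ 2

/-- the thresholds of the stopping time -/
noncomputable def thr (p n i : ℕ) : ℝ := (1 + 1 / (n : ℝ)) ^ (n - i) * (p : ℝ) ^ n

/-- the stopping time is `j` -/
def Om (p n : ℕ) (F : ℕ → ℕ → Ω → ℂ) (j : ℕ) (ω : Ω) : Prop :=
  (∀ i : ℕ, j < i → i ≤ n → gg p n F i ω ≤ thr p n i) ∧ thr p n j < gg p n F j ω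

/-- square function of the classes of depth `i` in the class `c` modulo `p` -/
noncomputable def blk (p : ℕ) (F : ℕ → ℕ → Ω → ℂ) (i c : ℕ) (ω : Ω) : ℝ :=
  ∑ ξ ∈ (range (p ^ i)).filter (fun ξ => ξ % p = c), ‖F i ξ ω‖ ^ 2

/-- sum of the functions `f` of the classes of depth `j` in the class `(i, ξ)` -/
noncomputable def bf (p : ℕ) (f : ℕ → Ω → ℂ) (j i ξ : ℕ) (ω : Ω) : ℂ :=
  ∑ y ∈ range (p ^ (j - i)), f (ξ + p ^ i * y) ω

/-- `F'` is the tree `F` pruned at the height `A` -/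
def Pr (p n : ℕ) (A : ℝ) (F F' : ℕ → ℕ → Ω → ℂ) (χ : ℕ → ℕ → Ω → ℝ) : Prop :=
  (∀ x : ℕ, ∀ ω : Ω, F' n x ω = F n x ω) ∧
  ∀ a < n, ∀ ξ < p ^ a, ∀ ω : Ω,
    (‖(χ a ξ ω : ℂ) * ch p F' a ξ ω‖ ≤ A ∧ F' a ξ ω = (χ a ξ ω : ℂ) * ch p F' a ξ ω) ∨
    (A < ‖(χ a ξ ω : ℂ) * ch p F' a ξ ω‖ ∧ F' a ξ ω = 0)

/-- `G` agrees with `F'` below the depth `j` and is not pruned up to the depth `j` -/
def Mx (p n j : ℕ) (F' G : ℕ → ℕ → Ω → ℂ) (χ : ℕ → ℕ → Ω → ℝ) : Prop :=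
  (∀ a : ℕ, j < a → a ≤ n → ∀ ξ < p ^ a, ∀ ω : Ω, G a ξ ω = F' a ξ ω) ∧
  ∀ a ≤ j, ∀ ξ < p ^ a, ∀ ω : Ω, G a ξ ω = (χ a ξ ω : ℂ) * ch p G a ξ ω

end

/-- flat decoupling of degree `l` at the critical exponent, scale `p^n` -/
def FL (p l n : ℕ) (D : ℝ) : Prop :=
  ∀ (Ω : Type) [Fintype Ω] (S : Sys Ω) (M : ℕ) (g : ℕ → Ω → ℂ), l * n ≤ M →
    (∀ x < p ^ n, Loc p M l S n (x : ℤ) (g x)) →
      mom S (l * (l + 1)) (fun ω => ∑ x ∈ range (p ^ n), g x ω) ≤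
        D * (p : ℝ) ^ (n * (kk l - 1)) * ∑ x ∈ range (p ^ n), mom S (l * (l + 1)) (g x)

/-- the main inequality for trees with bounded leaves -/
def MI (p k n : ℕ) (E : ℝ) : Prop :=
  ∀ (Ω : Type) [Fintype Ω] (S : Sys Ω) (M : ℕ) (F : ℕ → ℕ → Ω → ℂ) (χ : ℕ → ℕ → Ω → ℝ),
    k * n ≤ M → Tree p M k n S F χ → (∀ x < p ^ n, ∀ ω, ‖F n x ω‖ ≤ 1) →
      mom S (k * (k + 1)) (F 0 0) ≤
        E * (p : ℝ) ^ (n * (kk k - 1)) * ∑ x ∈ range (p ^ n), mom S 2 (F n x)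

/-- the main inequality for sums of bounded localised functions -/
def MZ (p k n : ℕ) (E : ℝ) : Prop :=
  ∀ (Ω : Type) [Fintype Ω] (S : Sys Ω) (M : ℕ) (g : ℕ → Ω → ℂ), k * n ≤ M →
    (∀ x < p ^ n, Loc p M k S n (x : ℤ) (g x)) → (∀ x < p ^ n, ∀ ω, ‖g x ω‖ ≤ 1) →
      mom S (k * (k + 1)) (fun ω => ∑ x ∈ range (p ^ n), g x ω) ≤
        E * (p : ℝ) ^ (n * (kk k - 1)) * ∑ x ∈ range (p ^ n), mom S 2 (g x)

/-- decoupling for the cone over the curve of degree `k - 1`, at depth `j` -/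
def CB (p k j : ℕ) (D : ℝ) : Prop :=
  ∀ (Ω : Type) [Fintype Ω] (S : Sys Ω) (M : ℕ) (h : ℕ → Ω → ℂ), k * (j + 1) ≤ M →
    (∀ ξ < p ^ j, Ivt p M k S j (ξ : ℤ) (h ξ)) →
    (∀ ξ < p ^ j, ∀ ω : Ω,
      ∑ c ∈ range p, h ξ (S.T (C ((c : ℤ) * (p : ℤ) ^ (M - j - 1)) * X) ω) = 0) →
      mom S (k * (k - 1)) (fun ω => ∑ ξ ∈ range (p ^ j), h ξ ω) ≤
        D * (p : ℝ) ^ (j * (kk (k - 1) - 1)) *
          ∑ ξ ∈ range (p ^ j), mom S (k * (k - 1)) (h ξ)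

end Pool.Agent.H22.HL
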