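import Pool.Agent.H22.HL.Targets

/-!
# HIG: moment of the square function on the set where the stopping time is `j` (helper22)
-/

set_option autoImplicit false

open Finset Polynomial

namespace Pool.Agent.H22.HL

theorem HIG_reindex (f : ℕ → ℝ) (a b : ℕ) :
    ∑ ξ ∈ range a, ∑ y ∈ range b, f (ξ + a * y) = ∑ x ∈ range (a * b), f x := by
  induction b with
  | zero => simp
  | succ b ih =>
    simp only [Finset.sum_range_succ, Finset.sum_add_distrib, Nat.mul_succ]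
    rw [ih, Finset.sum_range_add]
    congr 1
    refine Finset.sum_congr rfl fun x _ => ?_
    rw [add_comm]

theorem HIG_pow_sum (p q : ℕ) (x : ℕ → ℝ) (hx : ∀ i, 0 ≤ x i) (hp : 1 ≤ p) :
    (∑ c ∈ range p, x c) ^ q ≤ (p : ℝ) ^ q * ∑ c ∈ range p, x c ^ q := by
  rcases Nat.eq_zero_or_pos q with rfl | hq
  · simp only [pow_zero, Finset.sum_const, card_range, nsmul_eq_mul, mul_one, one_mul]
    exact_mod_cast hp
  · obtain ⟨m, rfl⟩ : ∃ m, q = m + 1 := ⟨q - 1, by omega⟩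
    have h := pow_sum_div_card_le_sum_pow (s := range p) (f := x) (fun i _ => hx i) m
    rw [card_range] at h
    have hp' : (0 : ℝ) < (p : ℝ) := by exact_mod_cast hp
    have hp1 : (1 : ℝ) ≤ (p : ℝ) := by exact_mod_cast hp
    rw [div_le_iff₀ (by positivity)] at h
    have hs : 0 ≤ ∑ c ∈ range p, x c ^ (m + 1) :=
      Finset.sum_nonneg fun i _ => pow_nonneg (hx i) _
    calc (∑ c ∈ range p, x c) ^ (m + 1) ≤ (∑ c ∈ range p, x c ^ (m + 1)) * (p : ℝ) ^ m := h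
      _ ≤ (∑ c ∈ range p, x c ^ (m + 1)) * (p : ℝ) ^ (m + 1) := by
          exact mul_le_mul_of_nonneg_left (pow_le_pow_right₀ hp1 (Nat.le_succ m)) hs
      _ = _ := by ring

theorem HIG_mom_nonneg {Ω : Type} [Fintype Ω] (S : Sys Ω) (q : ℕ) (g : Ω → ℂ) :
    0 ≤ mom S q g :=
  Finset.sum_nonneg fun ω _ => mul_nonneg (S.w_nonneg ω) (pow_nonneg (norm_nonneg _) _)

theorem HIG_h_mom {Ω : Type} [Fintype Ω] (S : Sys Ω) (p q : ℕ) (A : ℝ) (g : Ω → ℂ)
    (F : ℕ → Ω → ℂ) (hp : 1 ≤ p) (_hA : 0 ≤ A)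
    (hF : ∀ c < p, ∀ ω, ‖F c ω‖ ≤ A)
    (hg : ∀ ω, ‖g ω‖ ≤ (p : ℝ) * ∑ c ∈ range p, ‖F c ω‖ ^ 2) :
    mom S q g ≤ (p : ℝ) ^ (2 * q) * A ^ q * ∑ c ∈ range p, mom S q (F c) := by
  unfold mom
  rw [Finset.sum_comm, Finset.mul_sum]
  refine Finset.sum_le_sum fun ω _ => ?_
  rw [← Finset.mul_sum]
  have h1 : ‖g ω‖ ^ q ≤ (p : ℝ) ^ (2 * q) * A ^ q * ∑ c ∈ range p, ‖F c ω‖ ^ q := by
    calc ‖g ω‖ ^ q ≤ ((p : ℝ) * ∑ c ∈ range p, ‖F c ω‖ ^ 2) ^ q :=
          pow_le_pow_left₀ (norm_nonneg _) (hg ω) q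
      _ = (p : ℝ) ^ q * (∑ c ∈ range p, ‖F c ω‖ ^ 2) ^ q := by rw [mul_pow]
      _ ≤ (p : ℝ) ^ q * ((p : ℝ) ^ q * ∑ c ∈ range p, (‖F c ω‖ ^ 2) ^ q) := by
          refine mul_le_mul_of_nonneg_left ?_ (by positivity)
          exact HIG_pow_sum p q _ (fun i => by positivity) hp
      _ ≤ (p : ℝ) ^ q * ((p : ℝ) ^ q * ∑ c ∈ range p, A ^ q * ‖F c ω‖ ^ q) := by
          refine mul_le_mul_of_nonneg_left ?_ (by positivity)
          refine mul_le_mul_of_nonneg_left ?_ (by positivity)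
          refine Finset.sum_le_sum fun c hc => ?_
          have : (‖F c ω‖ ^ 2) ^ q = ‖F c ω‖ ^ q * ‖F c ω‖ ^ q := by
            rw [← pow_mul, ← pow_add]; congr 1; ring
          rw [this]
          exact mul_le_mul_of_nonneg_right
            (pow_le_pow_left₀ (norm_nonneg _) (hF c (Finset.mem_range.1 hc) ω) q)
            (by positivity)
      _ = _ := by
          rw [← Finset.mul_sum]
          ring
  calc S.w ω * ‖g ω‖ ^ q ≤ S.w ω * ((p : ℝ) ^ (2 * q) * A ^ q * ∑ c ∈ range p, ‖F c ω‖ ^ q) :=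
        mul_le_mul_of_nonneg_left h1 (S.w_nonneg ω)
    _ = _ := by ring

/-- pointwise part -/
theorem HIG_point {p n j q k : ℕ} {Ω : Type} (F : ℕ → ℕ → Ω → ℂ) (ω : Ω) (hp : 1 < p)
    (hj : j < n) (hkq : k ≤ q)
    (hc : ∑ ξ ∈ range (p ^ (j + 1)), ‖F (j + 1) ξ ω‖ ^ 2 ≤ gg p n F (j + 1) ω) :
    (p : ℝ) ^ (n * (q - k)) *
        (open Classical in if Om p n F j ω then gg p n F j ω ^ k else 0) ≤
      ((n : ℝ) + 1) ^ q *
        |gg p n F j ω - ∑ ξ ∈ range (p ^ (j + 1)), ‖F (j + 1) ξ ω‖ ^ 2| ^ q := by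
  classical
  by_cases hO : Om p n F j ω
  · rw [if_pos hO]
    obtain ⟨hO1, hO2⟩ := hO
    set g := gg p n F j ω with hg
    set c := ∑ ξ ∈ range (p ^ (j + 1)), ‖F (j + 1) ξ ω‖ ^ 2 with hcdef
    have hn : 0 < n := by omega
    have hn' : (0 : ℝ) < (n : ℝ) := by exact_mod_cast hn
    have hp1 : (1 : ℝ) ≤ (p : ℝ) := by exact_mod_cast hp.le
    have hpn : (0 : ℝ) < (p : ℝ) ^ n := by positivity
    have hthr : thr p n j = (1 + 1 / (n : ℝ)) * thr p n (j + 1) := by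
      unfold thr
      have : n - j = (n - (j + 1)) + 1 := by omega
      rw [this, pow_succ]
      ring
    have h1 : c ≤ thr p n (j + 1) := hc.trans (hO1 (j + 1) (Nat.lt_succ_self j) hj)
    have hge : (p : ℝ) ^ n ≤ thr p n j := by
      unfold thr
      have : (1 : ℝ) ≤ (1 + 1 / (n : ℝ)) ^ (n - j) := by
        apply one_le_pow₀
        have : (0 : ℝ) ≤ 1 / (n : ℝ) := by positivity
        linarith
      nlinarith
    have hgp : (p : ℝ) ^ n ≤ g := hge.trans hO2.le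
    have hg0 : 0 < g := lt_of_lt_of_le hpn hgp
    have h2 : g ≤ ((n : ℝ) + 1) * (g - c) := by
      have h3 : (1 + 1 / (n : ℝ)) * c < g := by
        calc (1 + 1 / (n : ℝ)) * c ≤ (1 + 1 / (n : ℝ)) * thr p n (j + 1) := by
              apply mul_le_mul_of_nonneg_left h1; positivity
          _ = thr p n j := hthr.symm
          _ < g := hO2
      have h4 : ((n : ℝ) + 1) * c < n * g := by
        have := mul_lt_mul_of_pos_left h3 hn'
        have e1 : (n : ℝ) * ((1 + 1 / (n : ℝ)) * c) = ((n : ℝ) + 1) * c := by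
          field_simp
        rw [e1] at this
        exact this
      linarith
    have h5 : g ≤ ((n : ℝ) + 1) * |g - c| := by
      refine h2.trans ?_
      apply mul_le_mul_of_nonneg_left (le_abs_self _); positivity
    calc (p : ℝ) ^ (n * (q - k)) * g ^ k = ((p : ℝ) ^ n) ^ (q - k) * g ^ k := by rw [← pow_mul]
      _ ≤ g ^ (q - k) * g ^ k := by
          apply mul_le_mul_of_nonneg_right (pow_le_pow_left₀ hpn.le hgp _); positivity
      _ = g ^ q := by rw [← pow_add]; congr 1; omega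
      _ ≤ (((n : ℝ) + 1) * |g - c|) ^ q := pow_le_pow_left₀ hg0.le h5 q
      _ = _ := by rw [mul_pow]
  · rw [if_neg hO, mul_zero]
    positivity

theorem m_hig (h1 : T_HJ) (h2 : T_SUB) (h3 : T_IQ) (h4 : T_TRL) : T_HIG := by
  classical
  intro p M k n j D E μ A hp hk hj hM hD hE hμ hA hCB hMI Ω _ S F χ hT hleaf hFA
  have hkn : n ≤ M := le_trans (Nat.le_mul_of_pos_left n (by omega)) hM
  obtain ⟨h, hi, hz, hb, hs⟩ := h1 p M k n j hp (by omega) hj hkn Ω S F χ hT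
  obtain ⟨-, -, hFch, -⟩ := h4 p M k n hp Ω S F χ hT
  have hp1 : (1 : ℝ) ≤ (p : ℝ) := by exact_mod_cast hp.le
  have hqk : k ≤ k * (k - 1) := Nat.le_mul_of_pos_right k (by omega)
  set q := k * (k - 1) with hq
  have hkj : k * (j + 1) ≤ M := le_trans (Nat.mul_le_mul_left k hj) hM
  -- the next square function
  have hc : ∀ ω, ∑ ξ ∈ range (p ^ (j + 1)), ‖F (j + 1) ξ ω‖ ^ 2 ≤ gg p n F (j + 1) ω := by
    intro ω
    unfold gg
    split_ifs with hlt
    · refine Finset.sum_le_sum fun ξ hξ => ?_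
      exact pow_le_pow_left₀ (norm_nonneg _) (hFch (j + 1) hlt ξ (Finset.mem_range.1 hξ) ω) 2
    · exact le_rfl
  -- step A and B
  have hAB : (p : ℝ) ^ (n * (q - k)) *
      ∑ ω, S.w ω * (if Om p n F j ω then gg p n F j ω ^ k else 0) ≤
      ((n : ℝ) + 1) ^ q * mom S q (fun ω => ∑ ξ ∈ range (p ^ j), h ξ ω) := by
    unfold mom
    rw [Finset.mul_sum, Finset.mul_sum]
    refine Finset.sum_le_sum fun ω _ => ?_
    have := HIG_point (q := q) (k := k) F ω hp hj hqk (hc ω)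
    have e1 : ‖∑ ξ ∈ range (p ^ j), h ξ ω‖ =
        |gg p n F j ω - ∑ ξ ∈ range (p ^ (j + 1)), ‖F (j + 1) ξ ω‖ ^ 2| := by
      rw [hs ω, Complex.norm_real, Real.norm_eq_abs]
    rw [e1]
    calc (p : ℝ) ^ (n * (q - k)) * (S.w ω * (if Om p n F j ω then gg p n F j ω ^ k else 0))
        = S.w ω * ((p : ℝ) ^ (n * (q - k)) *
            (if Om p n F j ω then gg p n F j ω ^ k else 0)) := by ring
      _ ≤ S.w ω * (((n : ℝ) + 1) ^ q *
            |gg p n F j ω - ∑ ξ ∈ range (p ^ (j + 1)), ‖F (j + 1) ξ ω‖ ^ 2| ^ q) := by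
          apply mul_le_mul_of_nonneg_left _ (S.w_nonneg ω)
          convert this using 2
      _ = _ := by ring
  have hCBa := hCB Ω S M h hkj hi hz
  -- step C
  have hC : ∑ ξ ∈ range (p ^ j), mom S q (h ξ) ≤
      (p : ℝ) ^ (2 * q) * A ^ q * ∑ ξ ∈ range (p ^ (j + 1)), mom S q (F (j + 1) ξ) := by
    calc ∑ ξ ∈ range (p ^ j), mom S q (h ξ)
        ≤ ∑ ξ ∈ range (p ^ j), (p : ℝ) ^ (2 * q) * A ^ q *
            ∑ c ∈ range p, mom S q (F (j + 1) (ξ + p ^ j * c)) := by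
          refine Finset.sum_le_sum fun ξ hξ => ?_
          have hξ' := Finset.mem_range.1 hξ
          refine HIG_h_mom S p q A (h ξ) (fun c => F (j + 1) (ξ + p ^ j * c)) hp.le hA ?_ ?_
          · intro c hcp ω
            apply hFA
            calc ξ + p ^ j * c < p ^ j + p ^ j * c := by omega
              _ = p ^ j * (c + 1) := by ring
              _ ≤ p ^ j * p := Nat.mul_le_mul_left _ hcp
              _ = p ^ (j + 1) := by rw [pow_succ]
          · intro ω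
            exact hb ξ hξ' ω
      _ = _ := by
          rw [← Finset.mul_sum]
          congr 1
          have := HIG_reindex (fun x => mom S q (F (j + 1) x)) (p ^ j) p
          rw [this, pow_succ]
  -- step D
  have hDD : ∀ ξ < p ^ (j + 1), mom S q (F (j + 1) ξ) ≤
      (p : ℝ) ^ ((n - j - 1) * (kk (k - 1) - 1)) * (μ ^ (kk (k - 1) - 1) + E / μ ^ k) *
        ∑ y ∈ range (p ^ (n - j - 1)), mom S 2 (F n (ξ + p ^ (j + 1) * y)) := by
    intro ξ hξ
    obtain ⟨S', hw, hT'⟩ := h2 p M k n (j + 1) ξ hp hj hξ hkj Ω S F χ hT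
    have e1 : n - (j + 1) = n - j - 1 := by omega
    rw [e1] at hT'
    have hM' : k * (n - j - 1) ≤ M - k * (j + 1) := by
      have : k * (n - j - 1) + k * (j + 1) = k * n := by
        rw [← Nat.mul_add]; congr 1; omega
      omega
    have hleaf' : ∀ x < p ^ (n - j - 1), ∀ ω,
        ‖F (j + 1 + (n - j - 1)) (ξ + p ^ (j + 1) * x) ω‖ ≤ 1 := by
      intro x hx ω
      have e2 : j + 1 + (n - j - 1) = n := by omega
      rw [e2]
      apply hleaf
      calc ξ + p ^ (j + 1) * x < p ^ (j + 1) + p ^ (j + 1) * x := by omega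
        _ = p ^ (j + 1) * (x + 1) := by ring
        _ ≤ p ^ (j + 1) * p ^ (n - j - 1) := Nat.mul_le_mul_left _ hx
        _ = p ^ n := by rw [← pow_add]; congr 1
    have := h3 p (M - k * (j + 1)) k (n - j - 1) E μ hp hk hE hμ hM' hMI Ω S'
      (fun b y => F (j + 1 + b) (ξ + p ^ (j + 1) * y))
      (fun b y => χ (j + 1 + b) (ξ + p ^ (j + 1) * y)) hT' hleaf'
    have e2 : j + 1 + (n - j - 1) = n := by omega
    simp only [e2] at this
    have e3 : ∀ (r : ℕ) (g : Ω → ℂ), mom S' r g = mom S r g := by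
      intro r g; unfold mom; rw [hw]
    simp only [e3] at this
    simpa using this
  -- step E
  have hEE : ∑ ξ ∈ range (p ^ (j + 1)), mom S q (F (j + 1) ξ) ≤
      (p : ℝ) ^ ((n - j - 1) * (kk (k - 1) - 1)) * (μ ^ (kk (k - 1) - 1) + E / μ ^ k) *
        ∑ x ∈ range (p ^ n), mom S 2 (F n x) := by
    calc ∑ ξ ∈ range (p ^ (j + 1)), mom S q (F (j + 1) ξ)
        ≤ ∑ ξ ∈ range (p ^ (j + 1)), (p : ℝ) ^ ((n - j - 1) * (kk (k - 1) - 1)) *
          (μ ^ (kk (k - 1) - 1) + E / μ ^ k) *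
          ∑ y ∈ range (p ^ (n - j - 1)), mom S 2 (F n (ξ + p ^ (j + 1) * y)) :=
          Finset.sum_le_sum fun ξ hξ => hDD ξ (Finset.mem_range.1 hξ)
      _ = _ := by
          rw [← Finset.mul_sum]
          congr 1
          have := HIG_reindex (fun x => mom S 2 (F n x)) (p ^ (j + 1)) (p ^ (n - j - 1))
          rw [this, ← pow_add]
          congr 3
          omega
  have hZ : 0 ≤ ∑ x ∈ range (p ^ n), mom S 2 (F n x) :=
    Finset.sum_nonneg fun x _ => HIG_mom_nonneg S 2 _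
  have hμ0 : 0 < μ := lt_of_lt_of_le one_pos hμ
  have hQ : 0 ≤ μ ^ (kk (k - 1) - 1) + E / μ ^ k := by positivity
  have hpow : (p : ℝ) ^ (j * (kk (k - 1) - 1)) * (p : ℝ) ^ ((n - j - 1) * (kk (k - 1) - 1)) ≤
      (p : ℝ) ^ (n * (kk (k - 1) - 1)) := by
    rw [← pow_add, ← Nat.add_mul]
    apply pow_le_pow_right₀ hp1
    apply Nat.mul_le_mul_right
    omega
  calc (p : ℝ) ^ (n * (q - k)) *
      ∑ ω, S.w ω * (if Om p n F j ω then gg p n F j ω ^ k else 0)
      ≤ ((n : ℝ) + 1) ^ q * mom S q (fun ω => ∑ ξ ∈ range (p ^ j), h ξ ω) := hAB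
    _ ≤ ((n : ℝ) + 1) ^ q * (D * (p : ℝ) ^ (j * (kk (k - 1) - 1)) *
          ∑ ξ ∈ range (p ^ j), mom S q (h ξ)) := by
        apply mul_le_mul_of_nonneg_left hCBa; positivity
    _ ≤ ((n : ℝ) + 1) ^ q * (D * (p : ℝ) ^ (j * (kk (k - 1) - 1)) *
          ((p : ℝ) ^ (2 * q) * A ^ q *
            ((p : ℝ) ^ ((n - j - 1) * (kk (k - 1) - 1)) * (μ ^ (kk (k - 1) - 1) + E / μ ^ k) *
              ∑ x ∈ range (p ^ n), mom S 2 (F n x)))) := by
        apply mul_le_mul_of_nonneg_left _ (by positivity)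
        apply mul_le_mul_of_nonneg_left _ (by positivity)
        refine hC.trans ?_
        apply mul_le_mul_of_nonneg_left hEE (by positivity)
    _ = ((n : ℝ) + 1) ^ q * (p : ℝ) ^ (2 * q) * A ^ q * D *
          (μ ^ (kk (k - 1) - 1) + E / μ ^ k) *
          ((p : ℝ) ^ (j * (kk (k - 1) - 1)) * (p : ℝ) ^ ((n - j - 1) * (kk (k - 1) - 1))) *
          ∑ x ∈ range (p ^ n), mom S 2 (F n x) := by ring
    _ ≤ ((n : ℝ) + 1) ^ q * (p : ℝ) ^ (2 * q) * A ^ q * D *
          (μ ^ (kk (k - 1) - 1) + E / μ ^ k) * (p : ℝ) ^ (n * (kk (k - 1) - 1)) *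
          ∑ x ∈ range (p ^ n), mom S 2 (F n x) := by
        apply mul_le_mul_of_nonneg_right _ hZ
        apply mul_le_mul_of_nonneg_left hpow
        positivity

end Pool.Agent.H22.HL
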