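import Pool.Agent.H22.HL.Defs

/-!
# Vinogradov's mean value at the critical exponent with a sub-power loss: targets (helper22)

Every `T_X` is a proposition to be proved in a module of its own. See `Defs.lean`.
-/

set_option autoImplicit false

open Finset Polynomial

namespace Pool.Agent.H22.HL

/-- BAS: the action preserves weighted sums, is bijective and commutative. -/
def T_BAS : Prop :=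
  ∀ (Ω : Type) [Fintype Ω] (S : Sys Ω) (P : ℤ[X]),
    (∀ f : Ω → ℝ, ∑ ω, S.w ω * f (S.T P ω) = ∑ ω, S.w ω * f ω) ∧
    Function.Bijective (S.T P) ∧
    (∀ (Q : ℤ[X]) (ω : Ω), S.T P (S.T Q ω) = S.T Q (S.T P ω)) ∧
    (∀ (q : ℕ) (g : Ω → ℂ), mom S q (fun ω => g (S.T P ω)) = mom S q g)

/-- CST: polynomials constant on a class. -/
def T_CST : Prop :=
  (∀ (p M a b : ℕ) (ξ ξ' : ℤ) (P : ℤ[X]), a ≤ b → (p : ℤ) ^ a ∣ ξ' - ξ → Cst p M a ξ P →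
    Cst p M b ξ' P ∧ (p : ℤ) ^ M ∣ P.eval ξ' - P.eval ξ) ∧
  (∀ (p M i a : ℕ) (ξ : ℤ) (Q : ℤ[X]), i ≤ a → i ≤ M → Cst p M a ξ (C ((p : ℤ) ^ (M - i)) * Q)) ∧
  (∀ (p M : ℕ) (x y : ℤ), 0 < p → (p : ℤ) ^ M ∣ x - y →
    e ((x : ℝ) / (p : ℝ) ^ M) = e ((y : ℝ) / (p : ℝ) ^ M))

/-- ORT: one step of orthogonality. -/
def T_ORT : Prop :=
  ∀ p : ℕ, 0 < p → ∀ (Ω : Type) [Fintype Ω] (S : Sys Ω) (g : ℕ → Ω → ℂ) (V : Ω → ℝ)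
    (P : ℕ → ℤ[X]) (u : ℕ → ℂ), (∀ c < p, ‖u c‖ = 1) →
    (∀ c < p, ∀ ω, V (S.T (P c) ω) = V ω) →
    (∀ c < p, ∀ b < p, ∀ ω,
      g b (S.T (P c) ω) = u c * e (((c * b : ℕ) : ℝ) / (p : ℝ)) * g b ω) →
      ∑ ω, S.w ω * (V ω * ‖∑ b ∈ range p, g b ω‖ ^ 2) =
        ∑ ω, S.w ω * (V ω * ∑ b ∈ range p, ‖g b ω‖ ^ 2)

/-- TRL: the functions of a tree are localised; trivial bounds. -/
def T_TRL : Prop :=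
  ∀ (p M k n : ℕ), 1 < p → ∀ (Ω : Type) (S : Sys Ω) (F : ℕ → ℕ → Ω → ℂ) (χ : ℕ → ℕ → Ω → ℝ),
    Tree p M k n S F χ →
    (∀ a ≤ n, ∀ ξ < p ^ a, Loc p M k S a (ξ : ℤ) (F a ξ)) ∧
    (∀ a < n, ∀ ξ < p ^ a, Loc p M k S a (ξ : ℤ) (ch p F a ξ)) ∧
    (∀ a < n, ∀ ξ < p ^ a, ∀ ω, ‖F a ξ ω‖ ≤ ‖ch p F a ξ ω‖) ∧
    ((∀ x < p ^ n, ∀ ω, ‖F n x ω‖ ≤ 1) →
      (∀ a ≤ n, ∀ ξ < p ^ a, ∀ ω, ‖F a ξ ω‖ ≤ (p : ℝ) ^ (n - a)) ∧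
      (∀ a < n, ∀ ξ < p ^ a, ∀ ω, ‖ch p F a ξ ω‖ ≤ (p : ℝ) ^ (n - a)))

/-- E2: the second moment of a tree. -/
def T_E2 : Prop :=
  ∀ (p M k n : ℕ), 1 < p → 1 ≤ k → n ≤ M → ∀ (Ω : Type) [Fintype Ω] (S : Sys Ω)
    (F : ℕ → ℕ → Ω → ℂ) (χ : ℕ → ℕ → Ω → ℝ), Tree p M k n S F χ →
    mom S 2 (F 0 0) ≤ ∑ x ∈ range (p ^ n), mom S 2 (F n x) ∧
    (1 ≤ n → mom S 2 (ch p F 0 0) ≤ ∑ x ∈ range (p ^ n), mom S 2 (F n x))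

/-- SUB: the part of a tree above a class is a tree for a rescaled system. -/
def T_SUB : Prop :=
  ∀ (p M k n a ξ : ℕ), 1 < p → a ≤ n → ξ < p ^ a → k * a ≤ M → ∀ (Ω : Type) (S : Sys Ω)
    (F : ℕ → ℕ → Ω → ℂ) (χ : ℕ → ℕ → Ω → ℝ), Tree p M k n S F χ →
    ∃ S' : Sys Ω, S'.w = S.w ∧
      Tree p (M - k * a) k (n - a) S' (fun b y => F (a + b) (ξ + p ^ a * y))
        (fun b y => χ (a + b) (ξ + p ^ a * y))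

/-- IQ: interpolation between the second and the critical moment of a tree. -/
def T_IQ : Prop :=
  ∀ (p M k n : ℕ) (E μ : ℝ), 1 < p → 2 ≤ k → 0 ≤ E → 1 ≤ μ → k * n ≤ M → MI p k n E →
    ∀ (Ω : Type) [Fintype Ω] (S : Sys Ω) (F : ℕ → ℕ → Ω → ℂ) (χ : ℕ → ℕ → Ω → ℝ),
    Tree p M k n S F χ → (∀ x < p ^ n, ∀ ω, ‖F n x ω‖ ≤ 1) →
      mom S (k * (k - 1)) (F 0 0) ≤ (p : ℝ) ^ (n * (kk (k - 1) - 1)) *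
        (μ ^ (kk (k - 1) - 1) + E / μ ^ k) * ∑ x ∈ range (p ^ n), mom S 2 (F n x)

/-- LG: a polynomial whose derivative is `1` at `ξ_l` and `0` at the other `ξ_{l'}`, modulo `p`. -/
def T_LG : Prop :=
  ∀ (p k : ℕ), p.Prime → k < p → ∀ (ξ : Fin k → ℤ),
    (∀ l l' : Fin k, l ≠ l' → ¬ (p : ℤ) ∣ ξ l - ξ l') → ∀ l : Fin k,
      ∃ Q : ℤ[X], Q.natDegree ≤ k ∧ ∀ (l' : Fin k) (b : ℤ) (i : ℕ), 1 ≤ i →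
        (p : ℤ) ^ (i + 1) ∣ Q.eval (ξ l' + (p : ℤ) ^ i * b) - Q.eval (ξ l') -
          (if l' = l then (p : ℤ) ^ i * b else 0)

/-- CHS: one step of the `k`-linear orthogonality. -/
def T_CHS : Prop :=
  ∀ (p M k n i j : ℕ), p.Prime → k < p → 1 ≤ i → i + 1 ≤ j → j ≤ n → n ≤ M →
    ∀ (Ω : Type) [Fintype Ω] (S : Sys Ω) (F : ℕ → ℕ → Ω → ℂ) (χ : ℕ → ℕ → Ω → ℝ),
    Tree p M k n S F χ → ∀ (V : Ω → ℝ), (∀ ω, 0 ≤ V ω) →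
    (∀ Q : ℤ[X], Q.natDegree ≤ k → ∀ ω, V (S.T (C ((p : ℤ) ^ (M - j)) * Q) ω) = V ω) →
    ∀ (c : Fin k → ℕ), Function.Injective c → (∀ l, c l < p) →
      ∑ ω, S.w ω * (V ω * ∏ l, blk p F i (c l) ω) ≤
        ∑ ω, S.w ω * (V ω * ∏ l, blk p F (i + 1) (c l) ω)

/-- CHN: `k`-linear orthogonality down to the depth `j`. -/
def T_CHN : Prop :=
  ∀ (p M k n j : ℕ), p.Prime → k < p → 1 ≤ j → j ≤ n → n ≤ M →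
    ∀ (Ω : Type) [Fintype Ω] (S : Sys Ω) (F : ℕ → ℕ → Ω → ℂ) (χ : ℕ → ℕ → Ω → ℝ),
    Tree p M k n S F χ → ∀ (V : Ω → ℝ), (∀ ω, 0 ≤ V ω) →
    (∀ Q : ℤ[X], Q.natDegree ≤ k → ∀ ω, V (S.T (C ((p : ℤ) ^ (M - j)) * Q) ω) = V ω) →
    ∀ (c : Fin k → ℕ), Function.Injective c → (∀ l, c l < p) →
      ∑ ω, S.w ω * (V ω * ∏ l, ‖F 1 (c l) ω‖ ^ 2) ≤
        ∑ ω, S.w ω * (V ω * ∏ l, blk p F j (c l) ω)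

/-- PRU: pruning a tree. -/
def T_PRU : Prop :=
  ∀ (p M k n : ℕ) (A : ℝ), 1 < p → 0 ≤ A → ∀ (Ω : Type) (S : Sys Ω)
    (F : ℕ → ℕ → Ω → ℂ) (χ : ℕ → ℕ → Ω → ℝ), Tree p M k n S F χ →
    ∃ (F' : ℕ → ℕ → Ω → ℂ) (χ' : ℕ → ℕ → Ω → ℝ), Tree p M k n S F' χ' ∧ Pr p n A F F' χ

/-- MIX: the mixed trees. -/
def T_MIX : Prop :=
  ∀ (p M k n j : ℕ), 1 < p → j < n → ∀ (Ω : Type) (S : Sys Ω)
    (F F' : ℕ → ℕ → Ω → ℂ) (χ χ' : ℕ → ℕ → Ω → ℝ), Tree p M k n S F χ →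
    Tree p M k n S F' χ' →
    ∃ (G : ℕ → ℕ → Ω → ℂ) (ψ : ℕ → ℕ → Ω → ℝ), Tree p M k n S G ψ ∧ Mx p n j F' G χ

/-- ERR: the error made by pruning (pointwise). -/
def T_ERR : Prop :=
  ∀ (p M k n : ℕ) (A : ℝ), 1 < p → 0 < A → 1 ≤ n → ∀ (Ω : Type) (S : Sys Ω)
    (F F' : ℕ → ℕ → Ω → ℂ) (χ : ℕ → ℕ → Ω → ℝ), Tree p M k n S F χ → Pr p n A F F' χ →
    (∀ ω, ∑ ξ ∈ range p, ‖F 1 ξ ω - F' 1 ξ ω‖ ≤ (∑ i ∈ Ico 1 n, gg p n F' i ω) / A) ∧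
    ∀ (j : ℕ) (G : ℕ → ℕ → Ω → ℂ), 1 ≤ j → j < n → Mx p n j F' G χ → ∀ ω,
      ∑ ξ ∈ range p, ‖F 1 ξ ω - G 1 ξ ω‖ ≤ (∑ i ∈ Ico (j + 1) n, gg p n F' i ω) / A

/-- POI: existence of the stopping time, and the mixed tree is still large (pointwise). -/
def T_POI : Prop :=
  ∀ (p M k n : ℕ) (A α : ℝ), 1 < p → 1 ≤ k → 1 ≤ n → 0 < α →
    α * A = 12 * (p : ℝ) * n * (p : ℝ) ^ n → 48 * (p : ℝ) ^ 2 * n * (p : ℝ) ^ n < α ^ 2 →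
    ∀ (Ω : Type) (S : Sys Ω) (F F' : ℕ → ℕ → Ω → ℂ) (χ : ℕ → ℕ → Ω → ℝ),
    Tree p M k n S F χ → Pr p n A F F' χ → (∀ x < p ^ n, ∀ ω, ‖F n x ω‖ ≤ 1) →
    ∀ ω : Ω, α ≤ ‖ch p F 0 0 ω‖ →
      k ≤ ((range p).filter (fun c => ‖ch p F 0 0 ω‖ ≤ 2 * (p : ℝ) * ‖F 1 c ω‖)).card →
      ∃ j : ℕ, 1 ≤ j ∧ j < n ∧ Om p n F' j ω ∧ ∀ G : ℕ → ℕ → Ω → ℂ, Mx p n j F' G χ →
        ∃ c : Fin k → ℕ, Function.Injective c ∧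
          ∀ l, c l < p ∧ α ≤ 4 * (p : ℝ) * ‖G 1 (c l) ω‖

/-- GIV: the square functions of depth `≥ j` are invariant under all phases of denominator
`p^j`. -/
def T_GIV : Prop :=
  ∀ (p M k n j : ℕ), 1 < p → j ≤ n → n ≤ M → ∀ (Ω : Type) (S : Sys Ω)
    (F : ℕ → ℕ → Ω → ℂ) (χ : ℕ → ℕ → Ω → ℝ), Tree p M k n S F χ →
    ∀ Q : ℤ[X], Q.natDegree ≤ k → ∀ ω : Ω,
      (∀ i : ℕ, j ≤ i → i ≤ n → gg p n F i (S.T (C ((p : ℤ) ^ (M - j)) * Q) ω) = gg p n F i ω) ∧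
      (Om p n F j (S.T (C ((p : ℤ) ^ (M - j)) * Q) ω) ↔ Om p n F j ω)

/-- HJ: the high part of the square function of depth `j`. -/
def T_HJ : Prop :=
  ∀ (p M k n j : ℕ), 1 < p → 1 ≤ k → j < n → n ≤ M → ∀ (Ω : Type) (S : Sys Ω)
    (F : ℕ → ℕ → Ω → ℂ) (χ : ℕ → ℕ → Ω → ℝ), Tree p M k n S F χ →
    ∃ h : ℕ → Ω → ℂ,
      (∀ ξ < p ^ j, Ivt p M k S j (ξ : ℤ) (h ξ)) ∧
      (∀ ξ < p ^ j, ∀ ω : Ω,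
        ∑ c ∈ range p, h ξ (S.T (C ((c : ℤ) * (p : ℤ) ^ (M - j - 1)) * X) ω) = 0) ∧
      (∀ ξ < p ^ j, ∀ ω : Ω,
        ‖h ξ ω‖ ≤ (p : ℝ) * ∑ c ∈ range p, ‖F (j + 1) (ξ + p ^ j * c) ω‖ ^ 2) ∧
      (∀ ω : Ω, ∑ ξ ∈ range (p ^ j), h ξ ω =
        ((gg p n F j ω - ∑ ξ ∈ range (p ^ (j + 1)), ‖F (j + 1) ξ ω‖ ^ 2 : ℝ) : ℂ))

/-- HIG: moment of the square function on the set where the stopping time is `j`. -/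
def T_HIG : Prop :=
  ∀ (p M k n j : ℕ) (D E μ A : ℝ), 1 < p → 2 ≤ k → j < n → k * n ≤ M → 0 ≤ D → 0 ≤ E →
    1 ≤ μ → 0 ≤ A → CB p k j D → MI p k (n - j - 1) E →
    ∀ (Ω : Type) [Fintype Ω] (S : Sys Ω) (F : ℕ → ℕ → Ω → ℂ) (χ : ℕ → ℕ → Ω → ℝ),
    Tree p M k n S F χ → (∀ x < p ^ n, ∀ ω, ‖F n x ω‖ ≤ 1) →
    (∀ ξ < p ^ (j + 1), ∀ ω, ‖F (j + 1) ξ ω‖ ≤ A) →
      (p : ℝ) ^ (n * (k * (k - 1) - k)) *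
          ∑ ω, S.w ω * (open Classical in if Om p n F j ω then gg p n F j ω ^ k else 0) ≤
        ((n : ℝ) + 1) ^ (k * (k - 1)) * (p : ℝ) ^ (2 * (k * (k - 1))) * A ^ (k * (k - 1)) * D *
          (μ ^ (kk (k - 1) - 1) + E / μ ^ k) * (p : ℝ) ^ (n * (kk (k - 1) - 1)) *
          ∑ x ∈ range (p ^ n), mom S 2 (F n x)

/-- BRJ: the measure of the set of large values with stopping time `j`. -/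
def T_BRJ : Prop :=
  ∀ (p M k n j : ℕ) (α : ℝ), p.Prime → k < p → 1 ≤ k → 1 ≤ j → j < n → n ≤ M → 0 < α →
    ∀ (Ω : Type) [Fintype Ω] (S : Sys Ω) (F F' G : ℕ → ℕ → Ω → ℂ) (χ χ' ψ : ℕ → ℕ → Ω → ℝ),
    Tree p M k n S F χ → Tree p M k n S F' χ' → Tree p M k n S G ψ → Mx p n j F' G χ →
      (α / (4 * (p : ℝ))) ^ (2 * k) *
          ∑ ω, S.w ω * (open Classical in if Om p n F' j ω ∧ (∃ c : Fin k → ℕ,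
            Function.Injective c ∧ ∀ l, c l < p ∧ α ≤ 4 * (p : ℝ) * ‖G 1 (c l) ω‖)
            then 1 else 0) ≤
        (p : ℝ) ^ k *
          ∑ ω, S.w ω * (open Classical in if Om p n F' j ω then gg p n F' j ω ^ k else 0)

/-- BRA: the measure of the broad part of a level set. -/
def T_BRA : Prop :=
  ∀ (p M k n : ℕ) (D E μ α : ℝ), p.Prime → k < p → 2 ≤ k → 1 ≤ n → k * n ≤ M → 0 ≤ D → 0 ≤ E →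
    1 ≤ μ → 0 < α → 48 * (p : ℝ) ^ 2 * n * (p : ℝ) ^ n < α ^ 2 →
    (∀ j < n, CB p k j D) → (∀ n' < n, MI p k n' E) →
    ∀ (Ω : Type) [Fintype Ω] (S : Sys Ω) (F : ℕ → ℕ → Ω → ℂ) (χ : ℕ → ℕ → Ω → ℝ),
    Tree p M k n S F χ → (∀ x < p ^ n, ∀ ω, ‖F n x ω‖ ≤ 1) →
      α ^ (k * (k + 1)) *
          ∑ ω, S.w ω * (open Classical in if α ≤ ‖ch p F 0 0 ω‖ ∧
            k ≤ ((range p).filter
              (fun c => ‖ch p F 0 0 ω‖ ≤ 2 * (p : ℝ) * ‖F 1 c ω‖)).card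
            then 1 else 0) ≤
        (4 * (p : ℝ)) ^ (2 * k) * (p : ℝ) ^ (k + 2 * (k * (k - 1))) *
          (12 * (p : ℝ)) ^ (k * (k - 1)) * ((n : ℝ) + 1) ^ (2 * (k * (k - 1)) + 1) * D *
          (μ ^ (kk (k - 1) - 1) + E / μ ^ k) * (p : ℝ) ^ (n * (kk k - 1)) *
          ∑ x ∈ range (p ^ n), mom S 2 (F n x)

/-- NBP: the narrow case (pointwise). -/
def T_NBP : Prop :=
  ∀ (p k q : ℕ) (z : ℕ → ℂ), 1 ≤ p → 1 ≤ k → 1 ≤ q →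
    ((range p).filter (fun c => ‖∑ b ∈ range p, z b‖ ≤ 2 * (p : ℝ) * ‖z c‖)).card < k →
      ‖∑ b ∈ range p, z b‖ ^ q ≤ (2 * (k : ℝ)) ^ q * ∑ c ∈ range p, ‖z c‖ ^ q

/-- DYA: dyadic decomposition of a moment. -/
def T_DYA : Prop :=
  ∀ (Ω : Type) [Fintype Ω] (w f : Ω → ℝ) (B : Ω → Prop) (q J : ℕ) (α₀ R Y : ℝ),
    (∀ ω, 0 ≤ w ω) → (∀ ω, 0 ≤ f ω) → (∀ ω, f ω ≤ R) → 0 < α₀ → R ≤ 2 ^ J * α₀ →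
    (∀ α : ℝ, α₀ ≤ α →
      α ^ q * ∑ ω, w ω * (open Classical in if α ≤ f ω ∧ B ω then 1 else 0) ≤ Y) →
      ∑ ω, w ω * (open Classical in if α₀ ≤ f ω ∧ B ω then f ω ^ q else 0) ≤
        2 ^ q * ((J : ℝ) + 1) * Y

/-- MIS: one step of the recursion in the depth. -/
def T_MIS : Prop :=
  ∀ (p k : ℕ), p.Prime → 2 ≤ k → 16 * k ^ 3 ≤ p → ∃ C₀ : ℕ, 1 ≤ C₀ ∧
    ∀ (n : ℕ) (D E μ : ℝ), 1 ≤ n → 1 ≤ D → 0 ≤ E → 1 ≤ μ →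
      (∀ j < n, CB p k j D) → (∀ n' < n, MI p k n' E) →
        MI p k n (E / 2 + (C₀ : ℝ) * ((n : ℝ) + 1) ^ C₀ *
          (1 + D * (μ ^ (kk (k - 1) - 1) + E / μ ^ k)))

/-- MIF: the main inequality with an explicit constant. -/
def T_MIF : Prop :=
  ∀ (p k : ℕ), p.Prime → 2 ≤ k → 16 * k ^ 3 ≤ p → ∃ C₀ : ℕ, 1 ≤ C₀ ∧
    ∀ (n : ℕ) (D : ℝ), 1 ≤ D → (∀ j < n, CB p k j D) →
      MI p k n (((C₀ : ℝ) * ((n : ℝ) + 1) * D) ^ C₀)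

/-- LVT: localised functions define a tree. -/
def T_LVT : Prop :=
  ∀ (p M k n : ℕ), 1 < p → ∀ (Ω : Type) (S : Sys Ω) (g : ℕ → Ω → ℂ),
    (∀ x < p ^ n, Loc p M k S n (x : ℤ) (g x)) →
    ∃ (F : ℕ → ℕ → Ω → ℂ) (χ : ℕ → ℕ → Ω → ℝ), Tree p M k n S F χ ∧
      (∀ x : ℕ, ∀ ω, F n x ω = g x ω) ∧ (∀ ω, F 0 0 ω = ∑ x ∈ range (p ^ n), g x ω)

/-- LV: from trees to sums. -/
def T_LV : Prop := ∀ (p k n : ℕ) (E : ℝ), 1 < p → MI p k n E → MZ p k n E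

/-- AM: decomposition according to the size of the leaves. -/
def T_AM : Prop :=
  ∀ (p k n : ℕ) (E : ℝ), 1 < p → 1 ≤ k → 0 ≤ E → MZ p k n E →
    FL p k n (((n : ℝ) * p + 2) ^ (k * (k + 1)) * (2 ^ (k * (k + 1)) * E + 1))

/-- F1: degree one. -/
def T_F1 : Prop := ∀ (p n : ℕ), 1 < p → FL p 1 n 1

/-- SLB: decomposition into slabs. -/
def T_SLB : Prop :=
  ∀ (p k j s M : ℕ), 1 < p → 1 ≤ k → 1 ≤ s → j + s ≤ M →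
    ∀ (Ω : Type) [Fintype Ω] (S : Sys Ω) (h : Ω → ℂ) (ξ : ℤ), Ivt p M k S j ξ h →
    (∀ ω : Ω, ∑ c ∈ range p, h (S.T (C ((c : ℤ) * (p : ℤ) ^ (M - j - 1)) * X) ω) = 0) →
    ∃ f : ℕ → Ω → ℂ,
      (∀ ω, ∑ σ ∈ range (p ^ s), f σ ω = h ω) ∧
      (∀ σ : ℕ, p ∣ σ → ∀ ω, f σ ω = 0) ∧
      (∀ (σ q : ℕ), 1 ≤ q → mom S q (f σ) ≤ mom S q h) ∧
      (∀ (σ : ℕ) (r : ℤ) (ω : Ω), f σ (S.T (C (r * (p : ℤ) ^ (M - j - s)) * X) ω) =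
        e (((r * (σ : ℤ) : ℤ) : ℝ) / (p : ℝ) ^ s) * f σ ω) ∧
      (∀ σ : ℕ, Ivt p M k S j ξ (f σ))

/-- LSY: inside a slab, the sector sums form a localised system of degree `k - 1`. -/
def T_LSY : Prop :=
  ∀ (p k i m j s M σ ξ₀ : ℕ), p.Prime → 2 ≤ k → k < p → i + m ≤ j → (k - 1) * m ≤ s →
    j + s ≤ M → k * j ≤ M → ¬ p ∣ σ → ξ₀ < p ^ i → ∀ (Ω : Type) (S : Sys Ω) (f : ℕ → Ω → ℂ),
    (∀ ξ < p ^ j, Ivt p M k S j (ξ : ℤ) (f ξ)) →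
    (∀ ξ < p ^ j, ∀ (r : ℤ) (ω : Ω), f ξ (S.T (C (r * (p : ℤ) ^ (M - j - s)) * X) ω) =
      e (((r * (σ : ℤ) : ℤ) : ℝ) / (p : ℝ) ^ s) * f ξ ω) →
    ∃ S' : Sys Ω, S'.w = S.w ∧
      ∀ u < p ^ m, Loc p ((k - 1) * m) (k - 1) S' m (u : ℤ) (bf p f j (i + m) (ξ₀ + p ^ i * u))

/-- WIN: decoupling in one window of length `m`. -/
def T_WIN : Prop :=
  ∀ (p k i m j s M σ ξ₀ : ℕ) (D : ℝ), p.Prime → 2 ≤ k → k < p → i + m ≤ j → (k - 1) * m ≤ s →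
    j + s ≤ M → k * j ≤ M → ¬ p ∣ σ → ξ₀ < p ^ i → FL p (k - 1) m D →
    ∀ (Ω : Type) [Fintype Ω] (S : Sys Ω) (f : ℕ → Ω → ℂ),
    (∀ ξ < p ^ j, Ivt p M k S j (ξ : ℤ) (f ξ)) →
    (∀ ξ < p ^ j, ∀ (r : ℤ) (ω : Ω), f ξ (S.T (C (r * (p : ℤ) ^ (M - j - s)) * X) ω) =
      e (((r * (σ : ℤ) : ℤ) : ℝ) / (p : ℝ) ^ s) * f ξ ω) →
      mom S (k * (k - 1)) (bf p f j i ξ₀) ≤ D * (p : ℝ) ^ (m * (kk (k - 1) - 1)) *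
        ∑ u ∈ range (p ^ m), mom S (k * (k - 1)) (bf p f j (i + m) (ξ₀ + p ^ i * u))

/-- CBW: decoupling for the cone. -/
def T_CBW : Prop :=
  ∀ (p k : ℕ), p.Prime → 2 ≤ k → k < p → ∃ C₀ : ℕ, ∀ (j m : ℕ) (D : ℝ), 1 ≤ m → 1 ≤ D →
    (∀ m' ≤ m, FL p (k - 1) m' D) → CB p k j ((p : ℝ) ^ (C₀ * m) * D ^ (j / m + 1))

/-- STP: the induction step in the degree. -/
def T_STP : Prop :=
  ∀ (p k : ℕ), p.Prime → 2 ≤ k → 16 * k ^ 3 ≤ p → ∃ C₀ : ℕ, 1 ≤ C₀ ∧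
    ∀ (n m : ℕ) (D : ℝ), 1 ≤ m → 1 ≤ D → (∀ m' ≤ m, FL p (k - 1) m' D) →
      FL p k n (((C₀ : ℝ) * ((n : ℝ) + 1) * (p : ℝ) ^ m * D ^ (n / m + 1)) ^ C₀)

/-- G2: degree two. -/
def T_G2 : Prop :=
  ∀ p : ℕ, p.Prime → 128 ≤ p → ∀ c : ℝ, 0 < c → ∃ C₀ : ℝ, ∀ n : ℕ,
    FL p 2 n (Real.exp (C₀ * ((n : ℝ) + 1) ^ c))

/-- GR: growth of the constants in one step. -/
def T_GR : Prop :=
  ∀ (p k : ℕ), p.Prime → 3 ≤ k → 16 * k ^ 3 ≤ p → ∀ c : ℝ, 0 ≤ c → c < 1 → ∀ C₁ : ℝ,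
    (∀ m : ℕ, FL p (k - 1) m (Real.exp (C₁ * ((m : ℝ) + 1) ^ c))) → ∃ C₀ : ℝ, ∀ n : ℕ,
      FL p k n (Real.exp (C₀ * ((n : ℝ) + 1) ^ (1 / (2 - c))))

/-- GA: growth of the constants. -/
def T_GA : Prop :=
  ∀ (p k : ℕ), p.Prime → 2 ≤ k → 16 * k ^ 3 ≤ p → ∀ ε : ℝ, 0 < ε → ∃ C₀ : ℝ, ∀ n : ℕ,
    FL p k n (Real.exp (C₀ * ((n : ℝ) + 1) ^ (((k : ℝ) - 2) / ((k : ℝ) - 1) + ε)))

/-- TOP: counting solutions. -/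
def T_TOP : Prop :=
  ∀ (p k n N : ℕ) (D : ℝ), p.Prime → 1 ≤ k → N < p ^ n → 0 ≤ D → FL p k n D →
    ((Pool.Agent.H22.VM.sols (kk k) k N).card : ℝ) ≤ D * (p : ℝ) ^ (n * kk k)

/-- FIN: the theorem. -/
def T_FIN : Prop :=
  ∀ k : ℕ, 2 ≤ k → ∀ ε : ℝ, 0 < ε → ∃ C₀ : ℝ, ∀ N : ℕ, 1 ≤ N →
    ((Pool.Agent.H22.VM.sols (kk k) k N).card : ℝ) ≤
      C₀ * Real.exp (Real.log N ^ (((k : ℝ) - 2) / ((k : ℝ) - 1) + ε)) * (N : ℝ) ^ kk k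

end Pool.Agent.H22.HL
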